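import Mathlib
import Pool.Agent.Helper386.D5V.Helper399_FF4b
import Pool.Agent.Helper386.D5V.Helper386_FF_Div

/-! Project ZT, TaskConst: the constant extension of prime degree (helper714). -/

set_option autoImplicit false

open Polynomial Module FF

namespace Pool.Agent.H714R3.ZT

/-- An element of a field with `x ^ card = x` comes from the finite subfield. -/
theorem mem_range_of_pow_card {κ₀ κ : Type*} [Field κ₀] [Finite κ₀] [Field κ] (i : κ₀ →+* κ) (x : κ)
    (h : x ^ Nat.card κ₀ = x) : ∃ a, i a = x := by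
  classical
  have := Fintype.ofFinite κ₀
  have hcard : Nat.card κ₀ = Fintype.card κ₀ := Nat.card_eq_fintype_card
  have hne : (X ^ Fintype.card κ₀ - X : κ[X]) ≠ 0 :=
    FiniteField.X_pow_card_sub_X_ne_zero κ Fintype.one_lt_card
  have hsub : (Finset.univ.map ⟨i, i.injective⟩ : Finset κ) ⊆
      ((X ^ Fintype.card κ₀ - X : κ[X]).roots).toFinset := by
    intro y hy
    rw [Finset.mem_map] at hy
    obtain ⟨a, -, rfl⟩ := hy
    rw [Multiset.mem_toFinset, mem_roots hne, IsRoot.def]
    simp only [eval_sub, eval_pow, eval_X, Function.Embedding.coeFn_mk]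
    rw [← map_pow, FiniteField.pow_card, sub_self]
  have hcard2 : ((X ^ Fintype.card κ₀ - X : κ[X]).roots).toFinset.card ≤
      (Finset.univ.map ⟨i, i.injective⟩ : Finset κ).card := by
    rw [Finset.card_map, Finset.card_univ]
    refine (Multiset.toFinset_card_le _).trans ?_
    refine (card_roots' _).trans ?_
    rw [FiniteField.X_pow_card_sub_X_natDegree_eq κ Fintype.one_lt_card]
  have heq := Finset.eq_of_subset_of_card_le hsub hcard2
  have hx : x ∈ ((X ^ Fintype.card κ₀ - X : κ[X]).roots).toFinset := by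
    rw [Multiset.mem_toFinset, mem_roots hne, IsRoot.def]
    simp only [eval_sub, eval_pow, eval_X]
    rw [← hcard, h, sub_self]
  rw [← heq, Finset.mem_map] at hx
  obtain ⟨a, -, ha⟩ := hx
  exact ⟨a, ha⟩

/-- There is a monic irreducible polynomial of every positive degree. -/
theorem exists_irr (k : Type) [Field k] [Finite k] (l : ℕ) (hl : 0 < l) :
    ∃ f : k[X], f.Monic ∧ Irreducible f ∧ f.natDegree = l := by
  obtain ⟨p, hp⟩ := CharP.exists k
  have : Fact p.Prime := ⟨CharP.char_is_prime k p⟩
  have : NeZero l := ⟨hl.ne'⟩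
  obtain ⟨α, hα⟩ := Field.exists_primitive_element_of_finite_bot k (FiniteField.Extension k p l)
  have hint : IsIntegral k α := IsIntegral.of_finite k α
  refine ⟨minpoly k α, minpoly.monic hint, minpoly.irreducible hint, ?_⟩
  rw [(Field.primitive_element_iff_minpoly_natDegree_eq k α).1 hα, FiniteField.finrank_extension]

/-- An irreducible polynomial over `k` stays irreducible over `F` if `k` is algebraically closed
in `F`. -/
theorem irr_map {k F : Type*} [Field k] [Field F] [Algebra k F]
    (hk : ∀ a : F, IsAlgebraic k a → a ∈ (algebraMap k F).range) (f : k[X]) (hf : f.Monic)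
    (hi : Irreducible f) : Irreducible (f.map (algebraMap k F)) := by
  have hm := hf.map (algebraMap k F)
  rw [hm.irreducible_iff_natDegree]
  refine ⟨?_, ?_⟩
  · intro h1
    have h2 := congrArg natDegree h1
    rw [natDegree_map, natDegree_one] at h2
    exact (hi.natDegree_pos).ne' h2
  · intro a b ha hb hab
    have h1 : a ∈ lifts (algebraMap k F) := by
      have h2 := integralClosure.mem_lifts_of_monic_of_dvd_map F hf ha ⟨b, hab.symm⟩
      rw [lifts_iff_coeff_lifts] at h2 ⊢
      intro n
      obtain ⟨c, hc⟩ := h2 n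
      have h3 : IsIntegral k (c : F) := c.2
      obtain ⟨d, hd⟩ := hk _ h3.isAlgebraic
      exact ⟨d, by rw [hd, ← hc]; rfl⟩
    obtain ⟨a', ha'⟩ := (mem_lifts _).1 h1
    have h4 : a' ∣ f := by
      rw [← map_dvd_map' (algebraMap k F), ha']
      exact ⟨b, hab.symm⟩
    have hdeg : a.natDegree + b.natDegree = f.natDegree := by
      rw [← ha.natDegree_mul hb, hab, natDegree_map]
    rcases hi.dvd_iff.1 h4 with h5 | h5
    · left
      rw [← ha', natDegree_map]
      exact natDegree_eq_zero_of_isUnit h5
    · right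
      have h6 : a'.natDegree = f.natDegree := (natDegree_eq_of_degree_eq (degree_eq_degree_of_associated h5.symm))
      rw [← ha', natDegree_map, h6] at hdeg
      omega

section ov

variable {k K K' : Type*} [Field k] [Field K] [Field K'] [Algebra k K] [Algebra k K'] [Algebra K K']
  [IsScalarTower k K K']

/-- The finite set of places over `w0` (separable extensions). -/
theorem places_over [FiniteDimensional K K'] [Algebra.IsSeparable K K'] (w0 : Place k K) :
    ∃ (S : Finset (Place k K')) (T : Place k K' → ℕ),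
      (∀ w e, Over w w0 e → w ∈ S) ∧
      (∀ w ∈ S, ∃ (e : ℕ) (h : Over w w0 e),
        T w = e * @finrank w0.RF w.RF _ _ h.resMap.toRingHom.toAlgebra.toModule ∧ 0 < T w) ∧
      ∑ w ∈ S, T w = finrank K K' := by
  classical
  obtain ⟨t, ht0, ht⟩ := w0.surj
  have htr : w0.Reg t := Or.inr (by omega)
  have : IsDiscreteValuationRing w0.O := w0.isDVR
  let iA : Algebra w0.O K' := ((algebraMap K K').comp w0.O.subtype).toAlgebra
  let ik : Algebra k w0.O := ((algebraMap k K).codRestrict w0.O (fun c => w0.reg_const c)).toAlgebra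
  have : IsScalarTower w0.O K K' := IsScalarTower.of_algebraMap_eq fun _ => rfl
  have : IsScalarTower k w0.O K' := IsScalarTower.of_algebraMap_eq fun c => by
    rw [IsScalarTower.algebraMap_apply k K K']
    rfl
  have hirr : (⟨t, htr⟩ : w0.O) ≠ 0 := fun h => ht0 (congrArg Subtype.val h)
  have hmax : (Ideal.span {(⟨t, htr⟩ : w0.O)}).IsMaximal := by
    have h1 : Ideal.span {(⟨t, htr⟩ : w0.O)} = IsLocalRing.maximalIdeal w0.O := by
      apply le_antisymm
      · rw [Ideal.span_le, Set.singleton_subset_iff]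
        show (⟨t, htr⟩ : w0.O) ∈ IsLocalRing.maximalIdeal w0.O
        rw [IsLocalRing.mem_maximalIdeal, mem_nonunits_iff, w0.isUnit_O_iff htr]
        rintro ⟨_, h⟩
        omega
      · rintro ⟨f, hf⟩ hm
        rw [IsLocalRing.mem_maximalIdeal, mem_nonunits_iff, w0.isUnit_O_iff hf] at hm
        rw [Ideal.mem_span_singleton]
        by_cases hf0 : f = 0
        · exact ⟨0, Subtype.ext (by simp [hf0])⟩
        · have h2 := (w0.reg_iff hf0).1 hf
          have h3 : w0.ord f ≠ 0 := fun h => hm ⟨hf0, h⟩
          have h4 : w0.Reg (f / t) := by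
            right
            rw [w0.ord_div hf0 ht0, ht]
            omega
          refine ⟨⟨f / t, h4⟩, Subtype.ext ?_⟩
          show f = t * (f / t)
          field_simp
    rw [h1]
    infer_instance
  obtain ⟨S, hS, hpos, hsum⟩ := fundamental (k := k) (A := w0.O) (L := K') K
    (⟨t, htr⟩ : w0.O) hirr hmax
  refine ⟨S, fun w => (w.ord (algebraMap w0.O K' ⟨t, htr⟩)).toNat * w.relf w0.O, ?_, ?_, hsum⟩
  · intro w e h
    rw [hS]
    refine ⟨fun a => ?_, ?_⟩
    · exact h.reg.2 a.2
    · have h1 : w.ord (algebraMap w0.O K' ⟨t, htr⟩) = e * w0.ord t := h.2 t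
      rw [h1, ht]
      have := h.1
      omega
  · intro w hw
    have h1 := (hS w).1 hw
    have h2 : Over w w0 (w.ord (algebraMap K K' t)).toNat :=
      over_of_reg w w0 t ht0 ht (fun f hf => h1.1 ⟨f, hf⟩) h1.2
    refine ⟨_, h2, ?_, ?_⟩
    · rw [← relf_eq h2]
      rfl
    · exact Nat.mul_pos h2.1 (hpos w hw)

omit [IsScalarTower k K K'] in
theorem over_unique {w : Place k K'} {v v' : Place k K} {e e' : ℕ} (h : Over w v e)
    (h' : Over w v' e') : v = v' := by
  apply Place.eq_of_le
  intro f hf0 hf
  have h1 := h.2 f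
  have h2 := h'.2 f
  have h3 : (0 : ℤ) < e' := by exact_mod_cast h'.1
  have h4 : 0 ≤ (e' : ℤ) * v'.ord f := by
    rw [← h2, h1]
    positivity
  exact nonneg_of_mul_nonneg_right h4 h3

omit [IsScalarTower k K K'] in
theorem over_comp {w : Place k K'} {v : Place k K} {e : ℕ} (h : Over w v e) (s : K' ≃ₐ[k] K')
    (hs : ∀ f : K, s (algebraMap K K' f) = algebraMap K K' f) : Over (w.comp s) v e := by
  refine ⟨h.1, fun f => ?_⟩
  rw [w.comp_ord, hs]
  exact h.2 f

end ov

end Pool.Agent.H714R3.ZT
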