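import Pool.Agent.H714R3.ZT.Const1

/-! Project ZT, TaskConst: local analysis (helper714). -/

set_option autoImplicit false
set_option linter.unusedSectionVars false

open Polynomial Module FF

namespace Pool.Agent.H714R3.ZT

section loc

variable {k F F' : Type*} [Field k] [Finite k] [Field F] [Field F'] [Algebra k F] [Algebra k F']
  [Algebra F F'] [IsScalarTower k F F'] [FiniteDimensional F F'] [Algebra.IsSeparable F F']

theorem deg_eq_of_surj {w : Place k F'} {w0 : Place k F} {e : ℕ} (h : Over w w0 e)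
    (hs : Function.Surjective h.resMap) : w.deg = w0.deg :=
  ((AlgEquiv.ofBijective h.resMap ⟨h.resMap.toRingHom.injective, hs⟩).toLinearEquiv.finrank_eq).symm

theorem red_aeval (w : Place k F') (θ : F') (hθ : w.Reg θ) (p : k[X]) :
    w.Reg (aeval θ p) ∧ w.red (aeval θ p) = aeval (w.red θ) p := by
  induction p using Polynomial.induction_on' with
  | add p q hp hq =>
    rw [map_add, map_add]
    exact ⟨w.reg_add hp.1 hq.1, by rw [w.red_add hp.1 hq.1, hp.2, hq.2]⟩
  | monomial n a =>
    rw [aeval_monomial, aeval_monomial]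
    have h1 : w.Reg (θ ^ n) := by
      induction n with
      | zero => rw [pow_zero]; exact w.reg_one
      | succ n ih => rw [pow_succ]; exact w.reg_mul ih hθ
    exact ⟨w.reg_mul (w.reg_const a) h1, by
      rw [w.red_mul (w.reg_const a) h1, w.red_pow hθ]; rfl⟩

variable (l : ℕ) (hl : l.Prime) (f : k[X]) (hi : Irreducible f) (hdeg : f.natDegree = l)
  (hfin : finrank F F' = l) (θ : F') (hθ : aeval θ f = 0) (σ : F' ≃ₐ[k] F')
  (hσF : ∀ a : F, σ (algebraMap F F' a) = algebraMap F F' a) (hσ : σ θ = θ ^ Nat.card k)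

include hi hdeg hθ in
theorem theta_pow : θ ^ (Nat.card k ^ l) = θ := by
  have h1 : f ∣ X ^ (Nat.card k) ^ l - X := by
    rw [← hi.natDegree_dvd_iff_dvd_X_pow_card_pow_sub_X, hdeg]
  obtain ⟨g, hg⟩ := h1
  have h2 := congrArg (aeval θ) hg
  rw [map_mul, hθ, zero_mul, map_sub, map_pow, aeval_X, sub_eq_zero] at h2
  exact h2

include hi hdeg hl in
theorem no_root {κ : Type*} [Field κ] [Algebra k κ] (r : κ) (hr : aeval r f = 0) :
    r ^ Nat.card k ≠ r := by
  intro h
  obtain ⟨c, hc⟩ := mem_range_of_pow_card (algebraMap k κ) r h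
  rw [← hc, aeval_algebraMap_apply, map_eq_zero_iff _ (algebraMap k κ).injective] at hr
  have h1 : f.IsRoot c := by rw [IsRoot.def, ← coe_aeval_eq_eval]; exact hr
  have h2 := natDegree_eq_of_degree_eq_some (degree_eq_one_of_irreducible_of_root hi h1)
  rw [hdeg] at h2
  exact hl.one_lt.ne' h2

include hσ in
theorem sigma_pow (n : ℕ) : (σ ^ n) θ = θ ^ (Nat.card k ^ n) := by
  induction n with
  | zero => simp
  | succ n ih =>
    rw [pow_succ, AlgEquiv.mul_apply, hσ, map_pow, ih, ← pow_mul, ← pow_succ]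

include hσF in
theorem sigma_pow_fix (n : ℕ) (a : F) : (σ ^ n) (algebraMap F F' a) = algebraMap F F' a := by
  induction n with
  | zero => simp
  | succ n ih => rw [pow_succ, AlgEquiv.mul_apply, hσF, ih]

include hl hi hdeg hfin hθ hσF hσ in
theorem local_main (v : Place k F) [FiniteDimensional k v.RF] (hv : l ∣ v.deg) :
    ∃ (w : Place k F') (e : ℕ), Over w v e ∧ Over (w.comp σ) v e ∧ w.comp σ ≠ w ∧
      w.deg = v.deg ∧ (w.comp σ).deg = v.deg := by
  classical
  obtain ⟨S, T, hS1, hS2, hS3⟩ := places_over (K' := F') v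
  rw [hfin] at hS3
  have hfk : Finite v.RF := Module.finite_of_finite k
  -- a place over `v`
  have hne : S.Nonempty := by
    rw [Finset.nonempty_iff_ne_empty]
    rintro rfl
    rw [Finset.sum_empty] at hS3
    exact hl.ne_zero hS3.symm
  obtain ⟨w, hw⟩ := hne
  obtain ⟨e, h, -, -⟩ := hS2 w hw
  have hf0 : f ≠ 0 := hi.ne_zero
  have hint : IsIntegral k θ := IsAlgebraic.isIntegral ⟨f, hf0, hθ⟩
  have hreg : w.Reg θ := w.reg_of_isIntegral (A := k) w.reg_const hint
  set r := w.red θ with hr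
  have hrf : aeval r f = 0 := by
    rw [← (red_aeval w θ hreg f).2, hθ, w.red_zero]
  let φ : w.RF → w.RF := fun x => x ^ Nat.card k
  have hit : ∀ n x, φ^[n] x = x ^ (Nat.card k ^ n) := fun n x => congrFun (pow_iterate _ n) x
  have hper : Function.IsPeriodicPt φ l r := by
    change φ^[l] r = r
    rw [hit, hr, ← w.red_pow hreg, theta_pow l f hi hdeg θ hθ]
  have hnot1 : ¬ Function.IsPeriodicPt φ 1 r := by
    intro h1
    have h2 : φ^[1] r = r := h1
    rw [hit, pow_one] at h2
    exact no_root l hl f hi hdeg r hrf h2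
  -- the residue of `θ` comes from `F`
  obtain ⟨c, hc⟩ : ∃ c, h.resMap c = r := by
    obtain ⟨m, hm⟩ := hv
    refine mem_range_of_pow_card h.resMap.toRingHom r ?_
    have h1 : Nat.card v.RF = Nat.card k ^ (l * m) := by
      rw [Module.natCard_eq_pow_finrank (K := k), ← hm]; rfl
    rw [h1, ← hit]
    exact hper.mul_const m
  obtain ⟨a, ha, rfl⟩ := v.red_surjective c
  rw [h.resMap_red ha] at hc
  have hra : w.Reg (algebraMap F F' a) := h.reg.2 ha
  -- powers of `σ` do not fix `w`
  have hkey : ∀ n, w.comp (σ ^ n) = w → Function.IsPeriodicPt φ n r := by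
    intro n hn
    change φ^[n] r = r
    rw [hit]
    have hord : ∀ y, w.ord ((σ ^ n) y) = w.ord y := by
      intro y
      rw [← w.comp_ord, hn]
    have hx0 : w.red (θ - algebraMap F F' a) = 0 := by
      rw [w.red_sub hreg hra, hc, sub_self]
    have hxr : w.Reg (θ - algebraMap F F' a) := by
      rw [sub_eq_add_neg]; exact w.reg_add hreg (w.reg_neg hra)
    rw [w.red_eq_zero_iff hxr] at hx0
    have hy : (σ ^ n) (θ - algebraMap F F' a) = θ ^ (Nat.card k ^ n) - algebraMap F F' a := by
      rw [map_sub, sigma_pow θ σ hσ, sigma_pow_fix σ hσF]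
    have hpr : w.Reg (θ ^ (Nat.card k ^ n)) := by
      have := (red_aeval w θ hreg (X ^ (Nat.card k ^ n))).1
      rwa [map_pow, aeval_X] at this
    have hyr : w.Reg (θ ^ (Nat.card k ^ n) - algebraMap F F' a) := by
      rw [sub_eq_add_neg]; exact w.reg_add hpr (w.reg_neg hra)
    have hy0 : w.red (θ ^ (Nat.card k ^ n) - algebraMap F F' a) = 0 := by
      rw [w.red_eq_zero_iff hyr, ← hy]
      rcases hx0 with h0 | h0
      · left; rw [h0, map_zero]
      · right; rw [hord]; exact h0
    rw [w.red_sub hpr hra, hc, w.red_pow hreg, sub_eq_zero] at hy0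
    exact hy0
  have hkey2 : ∀ n, 0 < n → n < l → w.comp (σ ^ n) ≠ w := by
    intro n hn0 hnl hn
    have h1 := (hkey n hn).gcd hper
    have h2 : Nat.gcd n l = 1 := by
      rw [Nat.gcd_comm]
      exact (Nat.Prime.coprime_iff_not_dvd hl).2 fun hd => absurd (Nat.le_of_dvd hn0 hd) (by omega)
    rw [h2] at h1
    exact hnot1 h1
  have hmem : ∀ n, w.comp (σ ^ n) ∈ S := fun n =>
    hS1 _ e (over_comp h (σ ^ n) (sigma_pow_fix σ hσF n))
  have hinj : Function.Injective (fun i : Fin l => (⟨w.comp (σ ^ (i : ℕ)), hmem i⟩ : S)) := by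
    intro i j hij
    have hij' : w.comp (σ ^ (i : ℕ)) = w.comp (σ ^ (j : ℕ)) := congrArg Subtype.val hij
    by_contra hne
    have aux : ∀ a b : ℕ, a < b → b < l → w.comp (σ ^ a) = w.comp (σ ^ b) → False := by
      intro a b hab hb hh
      refine hkey2 (b - a) (by omega) (by omega) ?_
      ext y
      obtain ⟨z, rfl⟩ := (σ ^ a).surjective y
      have h1 : (w.comp (σ ^ a)).ord z = (w.comp (σ ^ b)).ord z := by rw [hh]
      rw [w.comp_ord, w.comp_ord] at h1
      rw [w.comp_ord, h1]
      congr 1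
      have h2 : σ ^ b = σ ^ (b - a) * σ ^ a := by rw [← pow_add]; congr 1; omega
      rw [h2, AlgEquiv.mul_apply]
    rcases lt_trichotomy (i : ℕ) (j : ℕ) with h1 | h1 | h1
    · exact aux i j h1 j.2 hij'
    · exact hne (Fin.ext h1)
    · exact aux j i h1 i.2 hij'.symm
  have hcard : l ≤ S.card := by
    have := Fintype.card_le_of_injective _ hinj
    rwa [Fintype.card_fin, Fintype.card_coe] at this
  have hT1 : ∀ w' ∈ S, T w' = 1 := by
    intro w' hw'
    obtain ⟨_, _, _, hpos⟩ := hS2 w' hw'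
    by_contra hne
    have h1 : ∑ w ∈ S, 1 < ∑ w ∈ S, T w := by
      refine Finset.sum_lt_sum ?_ ⟨w', hw', by omega⟩
      intro i hi
      obtain ⟨_, _, _, hp⟩ := hS2 i hi
      omega
    rw [hS3, Finset.sum_const, smul_eq_mul, mul_one] at h1
    omega
  have hdeg' : ∀ w' ∈ S, w'.deg = v.deg := by
    intro w' hw'
    obtain ⟨e', h', h1, -⟩ := hS2 w' hw'
    rw [hT1 w' hw'] at h1
    have h2 := Nat.eq_one_of_mul_eq_one_left h1.symm
    exact deg_eq_of_surj h' (resMap_surjective_of_finrank h' h2)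
  have hm1 := hmem 1
  rw [pow_one] at hm1
  have hne1 := hkey2 1 one_pos hl.one_lt
  rw [pow_one] at hne1
  exact ⟨w, e, h, over_comp h σ hσF, hne1, hdeg' w hw, hdeg' _ hm1⟩

end loc

end Pool.Agent.H714R3.ZT
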