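import Pool.Agent.H714R3.ZT.PartA
import Pool.Agent.H525R3.FFp.Div

set_option autoImplicit false

open Polynomial Module IsDedekindDomain FF UniqueFactorizationMonoid

namespace Pool.Agent.H714R3.ZT

open Pool.Agent.H134R3.ZT Pool.Agent.H387R3.ZT

section PartB

/-- the determinant on `B ⧸ I` -/
noncomputable def E (k : Type*) {B : Type*} [Field k] [CommRing B] [Algebra k B] (w : B[X])
    (I : Ideal B) : k[X] := by
  classical
  exact if h : Module.Finite k (B ⧸ I) then DA k (w.map (Ideal.Quotient.mk I)) else 1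

variable {k B : Type*} [Field k] [CommRing B] [Algebra k B]

theorem E_eq (w : B[X]) (I : Ideal B) [h : Module.Finite k (B ⧸ I)] :
    E k w I = DA k (w.map (Ideal.Quotient.mk I)) := by
  unfold E
  rw [dif_pos h]

theorem finite_of_le' {I J : Ideal B} (h : I ≤ J) [Module.Finite k (B ⧸ I)] :
    Module.Finite k (B ⧸ J) :=
  Module.Finite.of_surjective (Ideal.Quotient.factorₐ k h).toLinearMap
    (Ideal.Quotient.factor_surjective h)

theorem E_top (w : B[X]) : E k w ⊤ = 1 := by
  have : Subsingleton (B ⧸ (⊤ : Ideal B)) := Ideal.Quotient.subsingleton_iff.2 rfl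
  have hfin : Module.Finite k (B ⧸ (⊤ : Ideal B)) := inferInstance
  rw [E_eq, DA_eq k (Basis.empty (ι := Fin 0) (R := k) (B ⧸ (⊤ : Ideal B)))]
  exact Matrix.det_isEmpty

variable [IsDedekindDomain B]

theorem E_mul (w : B[X]) {I J : Ideal B} (hI : I ≠ ⊥) (hJ : J ≠ ⊥) [Module.Finite k (B ⧸ (I * J))] :
    E k w (I * J) = E k w I * E k w J := by
  have h1 : Module.Finite k (B ⧸ I) := finite_of_le' (I := I * J) Ideal.mul_le_left
  have h2 : Module.Finite k (B ⧸ J) := finite_of_le' (I := I * J) Ideal.mul_le_right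
  rw [E_eq, E_eq, E_eq, DA_quot_mul k I J hI hJ]

theorem E_prod (w : B[X]) (m : Multiset (Ideal B)) (hm : ∀ I ∈ m, I ≠ ⊥)
    (h : Module.Finite k (B ⧸ m.prod)) : E k w m.prod = (m.map (E k w)).prod := by
  induction m using Multiset.induction_on with
  | empty =>
    rw [Multiset.prod_zero, Multiset.map_zero, Multiset.prod_zero, Ideal.one_eq_top, E_top]
  | cons I m ih =>
    rw [Multiset.prod_cons] at h ⊢
    rw [Multiset.map_cons, Multiset.prod_cons]
    have hI : I ≠ ⊥ := hm I (Multiset.mem_cons_self _ _)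
    have hm' : ∀ J ∈ m, J ≠ ⊥ := fun J hJ => hm J (Multiset.mem_cons_of_mem hJ)
    have hJ : m.prod ≠ ⊥ := by
      rw [← Ideal.zero_eq_bot, Ne, Multiset.prod_eq_zero_iff]
      intro h0
      exact hm' _ h0 rfl
    have h2 : Module.Finite k (B ⧸ m.prod) := finite_of_le' (I := I * m.prod) Ideal.mul_le_right
    rw [E_mul w hI hJ, ih hm' h2]

theorem E_factor (w : B[X]) {I : Ideal B} (hI : I ≠ ⊥) (h : Module.Finite k (B ⧸ I)) :
    E k w I = ((normalizedFactors I).map (E k w)).prod := by
  have h1 := Ideal.prod_normalizedFactors_eq_self hI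
  conv_lhs => rw [← h1]
  refine E_prod w _ ?_ (by rw [h1]; exact h)
  intro J hJ h0
  have := irreducible_of_normalized_factor J hJ
  exact this.ne_zero h0

end PartB

section places

variable {k F B : Type} [Field k] [Field F] [Algebra k F] [CommRing B] [IsDedekindDomain B]
  [Algebra k B] [Algebra B F] [IsFractionRing B F] [IsScalarTower k B F]

/-- The residue field. -/
noncomputable def resAlgHom (P : HeightOneSpectrum B) :
    B ⧸ P.asIdeal →ₐ[k] (placeOf (k := k) (L := F) P).RF :=
  Ideal.Quotient.liftₐ P.asIdeal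
    { (placeOf (k := k) (L := F) P).redHom (algebraMap B F) (placeOf_reg P) with
      commutes' := fun c => by
        change (placeOf (k := k) (L := F) P).red (algebraMap B F (algebraMap k B c)) = _
        rw [← IsScalarTower.algebraMap_apply k B F]
        rfl }
    (fun b hb => (placeOf_red_eq_zero (k := k) (L := F) P b).2 hb)

theorem resAlgHom_mk (P : HeightOneSpectrum B) (b : B) :
    resAlgHom (k := k) (F := F) P (Ideal.Quotient.mk _ b) =
      (placeOf (k := k) (L := F) P).red (algebraMap B F b) := rfl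

theorem resAlgHom_bijective (P : HeightOneSpectrum B) :
    Function.Bijective (resAlgHom (k := k) (F := F) P) := by
  constructor
  · rw [injective_iff_map_eq_zero]
    intro b hb
    obtain ⟨b, rfl⟩ := Ideal.Quotient.mk_surjective b
    rw [Ideal.Quotient.eq_zero_iff_mem, ← placeOf_red_eq_zero (k := k) (L := F) P]
    exact hb
  · intro c
    obtain ⟨b, hb⟩ := placeOf_redHom_surjective (k := k) (L := F) P c
    exact ⟨Ideal.Quotient.mk _ b, hb⟩

/-- The residue field. -/
noncomputable def resEquiv (P : HeightOneSpectrum B) :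
    (B ⧸ P.asIdeal) ≃ₐ[k] (placeOf (k := k) (L := F) P).RF :=
  AlgEquiv.ofBijective (resAlgHom P) (resAlgHom_bijective P)

theorem redP_eq (P : HeightOneSpectrum B) (w : B[X]) :
    redP (placeOf (k := k) (L := F) P) (w.map (algebraMap B F)) =
      (w.map (Ideal.Quotient.mk P.asIdeal)).map
        (resEquiv (k := k) (F := F) P : B ⧸ P.asIdeal →+* (placeOf (k := k) (L := F) P).RF) := by
  rw [redP, Polynomial.map_map]
  ext n
  have h0 : ∀ j, (C ((placeOf (k := k) (L := F) P).red 0) : (placeOf (k := k) (L := F) P).RF[X]) * X ^ j = 0 := by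
    intro j; rw [Place.red_zero, C_0, zero_mul]
  rw [Polynomial.sum_over_range' _ h0 (w.natDegree + 1) (by
    exact lt_of_le_of_lt natDegree_map_le (Nat.lt_succ_self _)), finsetSum_coeff, coeff_map]
  simp only [coeff_C_mul, coeff_X_pow, coeff_map]
  by_cases hn : n < w.natDegree + 1
  · rw [Finset.sum_eq_single n]
    · rw [if_pos rfl, mul_one]
      rfl
    · intro b _ hb
      rw [if_neg (Ne.symm hb), mul_zero]
    · intro h
      exact absurd (Finset.mem_range.2 hn) h
  · rw [Finset.sum_eq_zero]
    · rw [coeff_eq_zero_of_natDegree_lt (by omega), map_zero]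
    · intro b hb
      rw [Finset.mem_range] at hb
      rw [if_neg (by omega), mul_zero]

theorem ord_placeOf_eq_count (P : HeightOneSpectrum B) (b : B) (hb : b ≠ 0) :
    (placeOf (k := k) (L := F) P).ord (algebraMap B F b) =
      open Classical in ((normalizedFactors (Ideal.span {b})).count P.asIdeal : ℤ) := by
  classical
  rw [placeOf_ord, HeightOneSpectrum.valuation_of_algebraMap, HeightOneSpectrum.intValuation_if_neg _ hb,
    WithZero.log_exp, neg_neg]
  rw [Ideal.count_associates_factors_eq (by simpa using hb) P.isPrime P.ne_bot]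

end places

end Pool.Agent.H714R3.ZT
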