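import Pool.Agent.H714R3.ZT.Const2
import Pool.Agent.H387R3.ZT.Stmts2
import Pool.Agent.H525R3.FFp.Div

/-! Project ZT, TaskConst: the constant extension of prime degree (helper714). -/

set_option autoImplicit false
set_option linter.unusedSectionVars false

open Polynomial Module FF

namespace Pool.Agent.H714R3.ZT

open Pool.Agent.H387R3.ZT

section ext

variable {k F : Type} [Field k] [Finite k] [Field F] [Algebra k F] (f : k[X])
  [hirr : Fact (Irreducible (f.map (algebraMap k F)))]

/-- The constant extension. -/
abbrev CE (F : Type) [Field F] [Algebra k F] (f : k[X]) : Type := AdjoinRoot (f.map (algebraMap k F))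

theorem ce_root : aeval (AdjoinRoot.root (f.map (algebraMap k F)) : CE F f) f = 0 := by
  have h := AdjoinRoot.eval₂_root (f.map (algebraMap k F))
  rw [eval₂_map] at h
  rw [aeval_def, IsScalarTower.algebraMap_eq k F (CE F f)]
  exact h

theorem ce_root_pow :
    aeval ((AdjoinRoot.root (f.map (algebraMap k F)) : CE F f) ^ Nat.card k) f = 0 := by
  have := Fintype.ofFinite k
  have h1 : expand k (Nat.card k) f = f ^ (Nat.card k) := by
    rw [Nat.card_eq_fintype_card]
    exact FiniteField.expand_card f
  rw [← expand_aeval, h1, map_pow, ce_root, zero_pow]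
  exact Nat.card_pos.ne'

theorem ce_finite : FiniteDimensional F (CE F f) :=
  (AdjoinRoot.powerBasis hirr.out.ne_zero).finite

theorem ce_finrank : finrank F (CE F f) = f.natDegree := by
  rw [(AdjoinRoot.powerBasis hirr.out.ne_zero).finrank, AdjoinRoot.powerBasis_dim, natDegree_map]

theorem ce_sep (hf : f.Separable) : Algebra.IsSeparable F (CE F f) := by
  have h1 : IsSeparable F (AdjoinRoot.root (f.map (algebraMap k F)) : CE F f) := by
    have h2 : (f.map (algebraMap k F)).Separable := hf.map
    refine h2.of_dvd (minpoly.dvd F _ ?_)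
    rw [aeval_map_algebraMap]
    exact ce_root f
  have h2 : Algebra.IsSeparable F
      (IntermediateField.adjoin F {(AdjoinRoot.root (f.map (algebraMap k F)) : CE F f)}) :=
    (IntermediateField.isSeparable_adjoin_simple_iff_isSeparable _ _).2 h1
  have h3 : IntermediateField.adjoin F {(AdjoinRoot.root (f.map (algebraMap k F)) : CE F f)} = ⊤ :=
    IntermediateField.adjoin_eq_top_of_algebra _ _ (AdjoinRoot.adjoinRoot_eq_top)
  rw [h3] at h2
  exact AlgEquiv.Algebra.isSeparable IntermediateField.topEquiv

/-- The automorphism. -/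
noncomputable def ceHom : CE F f →ₐ[F] CE F f :=
  AdjoinRoot.liftAlgHom (f.map (algebraMap k F)) (Algebra.ofId F (CE F f))
    ((AdjoinRoot.root (f.map (algebraMap k F)) : CE F f) ^ Nat.card k) (by
      have h := ce_root_pow (F := F) f
      rw [← aeval_map_algebraMap F] at h
      exact h)

/-- The automorphism. -/
noncomputable def ceAut : CE F f ≃ₐ[F] CE F f :=
  AlgEquiv.ofBijective (ceHom (F := F) f) (by
    have := ce_finite (F := F) f
    have := Algebra.IsAlgebraic.algHom_bijective (K := F) (L := CE F f) (ceHom (F := F) f)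
    exact this)

theorem ceAut_root : ceAut f (AdjoinRoot.root (f.map (algebraMap k F)) : CE F f) =
    (AdjoinRoot.root (f.map (algebraMap k F)) : CE F f) ^ Nat.card k := by
  have h : ceAut f (AdjoinRoot.root (f.map (algebraMap k F)) : CE F f) =
      ceHom f (AdjoinRoot.root (f.map (algebraMap k F)) : CE F f) := by
    unfold ceAut
    exact AlgEquiv.ofBijective_apply _ _ _
  rw [h]
  exact AdjoinRoot.liftAlgHom_root _ _ _ _

theorem ce_isFF [h : IsFF k F] : IsFF k (CE F f) := by
  have := ce_finite (F := F) f
  constructor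
  · have := h.ess
    exact Algebra.EssFiniteType.comp k F (CE F f)
  · have h1 : Algebra.trdeg F (CE F f) = 0 := trdeg_eq_zero
    rw [← trdeg_add_eq k F (A := CE F f), h.trdeg, h1, add_zero]

theorem exists_ext [h : IsFF k F] (hf : f.Separable) :
    ∃ (F' : Type) (_ : Field F') (_ : Algebra k F') (_ : Algebra F F') (_ : IsScalarTower k F F')
      (_ : FiniteDimensional F F') (_ : Algebra.IsSeparable F F') (_ : IsFF k F') (θ : F')
      (σ : F' ≃ₐ[k] F'), finrank F F' = f.natDegree ∧ aeval θ f = 0 ∧
      (∀ a : F, σ (algebraMap F F' a) = algebraMap F F' a) ∧ σ θ = θ ^ Nat.card k := by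
  refine ⟨CE F f, inferInstance, inferInstance, inferInstance, inferInstance, ce_finite f,
    ce_sep f hf, ce_isFF f, AdjoinRoot.root (f.map (algebraMap k F)),
    (ceAut f).restrictScalars k, ?_, ?_, ?_, ?_⟩
  · exact ce_finrank f
  · exact ce_root f
  · intro a
    exact (ceAut f).commutes a
  · have h1 : ∀ N, N = Nat.card k → ((ceAut f).restrictScalars k : CE F f ≃ₐ[k] CE F f)
        (AdjoinRoot.root (f.map (algebraMap k F))) =
        (AdjoinRoot.root (f.map (algebraMap k F)) : CE F f) ^ N := by
      intro N hN
      rw [AlgEquiv.restrictScalars_apply, ceAut_root, hN]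
    exact h1 _ rfl

end ext

theorem taskConst : TaskConst := by
  intro k F _ _ _ _ hFF hk l hl hdvd
  obtain ⟨f, hmon, hi, hdeg⟩ := exists_irr k l hl.pos
  have : Fact (Irreducible (f.map (algebraMap k F))) := ⟨irr_map hk f hmon hi⟩
  obtain ⟨F', _, _, _, _, _, _, hIsFF, θ, σ, hfr, hθ, hσF, hσ⟩ :=
    exists_ext (F := F) f (PerfectField.separable_of_irreducible hi)
  have key : ∀ v : Place k F, ∃ (w : Place k F') (e : ℕ), Over w v e ∧ Over (w.comp σ) v e ∧
      w.comp σ ≠ w ∧ w.deg = v.deg ∧ (w.comp σ).deg = v.deg := by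
    intro v
    have hpf : PerfectField k := inferInstance
    have : FiniteDimensional k v.RF := inferInstance
    exact local_main l hl f hi hdeg (hfr.trans hdeg) θ hθ σ hσF hσ v (hdvd v)
  choose w e h1 h2 h3 h4 h5 using key
  refine ⟨F', inferInstance, inferInstance, hIsFF, w, fun v => (w v).comp σ, ?_, ?_, ?_, h4, h5⟩
  · intro v v' hvv
    have := h1 v
    rw [hvv] at this
    exact over_unique this (h1 v')
  · intro v v' hvv
    have hvv' : (w v).comp σ = (w v').comp σ := hvv
    have := h2 v
    rw [hvv'] at this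
    exact over_unique this (h2 v')
  · intro v v' hvv
    have hvv' : w v = (w v').comp σ := hvv
    have h6 := h1 v
    rw [hvv'] at h6
    have h7 := over_unique h6 (h2 v')
    subst h7
    exact h3 v hvv'.symm

end Pool.Agent.H714R3.ZT
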